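import Pool.Agent.Shared.DPRM.Basic

/-! The Davis, Putnam, Robinson, Matiyasevich theorem: bounded quantifiers, primitive recursive
functions, recursively enumerable sets, and an undecidable Diophantine set. -/

set_option autoImplicit false

namespace Pool.Agent.Shared.DPRM

open Dioph Finset

variable {α : Type}

theorem ball_core {β : Type} (p : (Option α ⊕ β → ℕ) → ℤ) (s : Finset β)
    (B : (Option α → ℕ) → ℕ)
    (hc : ∀ (m : ℤ) (u u' : Option α → ℕ) (t t' : β → ℕ), (∀ a, (u a : ℤ) ≡ u' a [ZMOD m]) →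
        (∀ i ∈ s, (t i : ℤ) ≡ t' i [ZMOD m]) → p (Sum.elim u t) ≡ p (Sum.elim u' t') [ZMOD m])
    (hb : ∀ (v : α → ℕ) (w y : ℕ) (t : β → ℕ), y ≤ w → (∀ i ∈ s, t i ≤ w) →
        (p (Sum.elim (Option.elim' y v) t)).natAbs ≤ B (Option.elim' w v))
    (v : α → ℕ) (b : ℕ) :
    (∀ y < b, ∃ t, p (Sum.elim (Option.elim' y v) t) = 0) ↔
      ∃ w q : ℕ, ∃ z : β → ℕ,
        b.factorial * (b + w + B (Option.elim' (b + w) v) + 3).factorial ∣ q + 1 ∧
        q.choose b ∣ (p (Sum.elim (Option.elim' q v) z)).natAbs ∧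
        ∀ i ∈ s, q.choose b ∣ (z i).choose w := by
  classical
  constructor
  · intro h
    choose! t ht using h
    obtain ⟨w, hw⟩ : ∃ w, ∀ y < b, ∀ i ∈ s, t y i < w := by
      refine ⟨(∑ y ∈ range b, ∑ i ∈ s, t y i) + 1, fun y hy i hi => Nat.lt_succ_of_le ?_⟩
      exact (single_le_sum (f := fun i => t y i) (fun _ _ => Nat.zero_le _) hi).trans
        (single_le_sum (f := fun y => ∑ i ∈ s, t y i) (fun _ _ => Nat.zero_le _)
          (mem_range.2 hy))
    set L := b + w + B (Option.elim' (b + w) v) + 3 with hL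
    obtain ⟨q, hq⟩ : ∃ q, b.factorial * L.factorial = q + 1 :=
      Nat.exists_eq_succ_of_ne_zero (Nat.mul_pos b.factorial_pos L.factorial_pos).ne'
    have h : b.factorial * L.factorial ∣ q + 1 := hq ▸ dvd_rfl
    have hL3 : 2 ≤ L.factorial := by
      calc 2 = Nat.factorial 2 := rfl
        _ ≤ L.factorial := Nat.factorial_le (by omega)
    have hcop : Set.Pairwise (range b : Set ℕ)
        (Function.onFun Nat.Coprime fun y => (q + 1) / (y + 1) - 1) := fun y hy y' hy' hne =>
      fac_coprime h (by omega) (by simpa using hy) (by simpa using hy') hne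
    have hne : ∀ y ∈ range b, (q + 1) / (y + 1) - 1 ≠ 0 := fun y hy => by
      have := fac_pos h (mem_range.1 hy)
      omega
    let z : β → ℕ := fun i =>
      (Nat.chineseRemainderOfFinset (fun y => t y i) _ (range b) hne hcop).1
    have hz : ∀ i, ∀ y ∈ range b, z i ≡ t y i [MOD (q + 1) / (y + 1) - 1] := fun i =>
      (Nat.chineseRemainderOfFinset (fun y => t y i) _ (range b) hne hcop).2
    refine ⟨w, q, z, h, ?_, fun i hi => ?_⟩
    · rw [choose_prod h]
      refine Finset.prod_dvd_of_isRelPrime
        (fun y hy y' hy' hyy => Nat.coprime_iff_isRelPrime.1 (hcop hy hy' hyy)) fun y hy => ?_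
      have hy' := mem_range.1 hy
      rw [← Int.natCast_dvd, ← Int.modEq_zero_iff_dvd, ← ht y hy']
      refine hc _ _ _ _ _ (fun a => ?_) fun i _ => Int.natCast_modEq_iff.2 (hz i y hy)
      rcases a with _ | a
      · apply Int.natCast_modEq_iff.2
        have e1 := fac_sub h hy'
        change q ≡ y [MOD _]
        exact Nat.ModEq.symm ((Nat.modEq_iff_dvd' (by omega)).2
          ⟨y + 1, by rw [mul_comm]; omega⟩)
      · exact Int.ModEq.refl _
    · rw [choose_prod h]
      refine Finset.prod_dvd_of_isRelPrime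
        (fun y hy y' hy' hyy => Nat.coprime_iff_isRelPrime.1 (hcop hy hy' hyy)) fun y hy => ?_
      have hy' := mem_range.1 hy
      have hco : Nat.Coprime ((q + 1) / (y + 1) - 1) w.factorial := by
        apply Nat.coprime_of_dvd
        intro r hr h1 h2
        have := fac_prime h hy' hr h1
        have := (hr.dvd_factorial).1 h2
        omega
      apply hco.dvd_of_dvd_mul_left
      rw [← Nat.descFactorial_eq_factorial_mul_choose, Nat.descFactorial_eq_prod_range]
      refine Dvd.dvd.trans ?_ (dvd_prod_of_mem _ (mem_range.2 (hw y hy' i hi)))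
      exact (hz i y hy).symm.dvd'
  · rintro ⟨w, q, z, h, h1, h2⟩ y hy
    set L := b + w + B (Option.elim' (b + w) v) + 3 with hL
    have hL3 : 6 ≤ L.factorial := by
      calc 6 = Nat.factorial 3 := rfl
        _ ≤ L.factorial := Nat.factorial_le (by omega)
    have hp := fac_pos h hy
    obtain ⟨r, hr, hrd⟩ := Nat.exists_prime_and_dvd (n := (q + 1) / (y + 1) - 1) (by omega)
    have hLr := fac_prime h hy hr hrd
    have hrC : r ∣ q.choose b := by
      rw [choose_prod h]
      exact hrd.trans (dvd_prod_of_mem (fun y => (q + 1) / (y + 1) - 1) (mem_range.2 hy))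
    have hx : ∀ i ∈ s, ∃ x ≤ b + w, z i ≡ x [MOD r] := by
      intro i hi
      have h3 : r ∣ (z i).descFactorial w := by
        rw [Nat.descFactorial_eq_factorial_mul_choose]
        exact (hrC.trans (h2 i hi)).mul_left _
      rw [Nat.descFactorial_eq_prod_range] at h3
      obtain ⟨j, hj, hj'⟩ := (Nat.Prime.prime hr).exists_mem_finset_dvd h3
      have := mem_range.1 hj
      by_cases hle : j ≤ z i
      · exact ⟨j, by omega, ((Nat.modEq_iff_dvd' hle).2 hj').symm⟩
      · exact ⟨z i, by omega, Nat.ModEq.refl _⟩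
    choose! x hx1 hx2 using hx
    refine ⟨x, ?_⟩
    have h4 : p (Sum.elim (Option.elim' q v) z) ≡ p (Sum.elim (Option.elim' y v) x) [ZMOD r] := by
      refine hc _ _ _ _ _ (fun a => ?_) fun i hi => Int.natCast_modEq_iff.2 (hx2 i hi)
      rcases a with _ | a
      · apply Int.natCast_modEq_iff.2
        have e1 := fac_sub h hy
        change q ≡ y [MOD _]
        refine Nat.ModEq.symm ((Nat.modEq_iff_dvd' (by omega)).2 ?_)
        have : q - y = (y + 1) * ((q + 1) / (y + 1) - 1) := by omega
        rw [this]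
        exact hrd.mul_left _
      · exact Int.ModEq.refl _
    have h5 : (r : ℤ) ∣ p (Sum.elim (Option.elim' q v) z) :=
      Int.natCast_dvd.2 (hrC.trans h1)
    have h6 : (r : ℤ) ∣ p (Sum.elim (Option.elim' y v) x) := (h4.dvd_iff).1 h5
    have h7 := hb v (b + w) y x (by omega) hx1
    have h8 := Nat.eq_zero_of_dvd_of_lt (Int.natCast_dvd.1 h6) (by omega)
    exact Int.natAbs_eq_zero.1 h8

theorem ball_dioph {P : (α → ℕ) → ℕ → Prop} {b : (α → ℕ) → ℕ} (db : DiophFn b)
    (h : Dioph {u : Option α → ℕ | P (u ∘ some) (u none)}) :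
    Dioph {v | ∀ y < b v, P v y} := by
  obtain ⟨β, p, hp⟩ := h
  obtain ⟨s, B, dB, hc, hb⟩ := poly_data p.isPoly
  have key : ∀ v, (∀ y < b v, P v y) ↔ ∃ w q : ℕ, ∃ z : β → ℕ,
        (b v).factorial * (b v + w + B (Option.elim' (b v + w) v) + 3).factorial ∣ q + 1 ∧
        q.choose (b v) ∣ (p (Sum.elim (Option.elim' q v) z)).natAbs ∧
        ∀ i ∈ s, q.choose (b v) ∣ (z i).choose w := by
    intro v
    rw [← ball_core p s B hc hb v (b v)]
    exact forall_congr' fun y => forall_congr' fun _ => hp (Option.elim' y v)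
  refine Dioph.ext ?_ fun v => (key v).symm
  refine ex1 (ex1 ?_)
  let a : α → Option (Option α) ⊕ β := fun i => Sum.inl (some (some i))
  let iw : Option (Option α) ⊕ β := Sum.inl (some none)
  let iq : Option (Option α) ⊕ β := Sum.inl none
  have db' : DiophFn fun u : Option (Option α) ⊕ β → ℕ => b (u ∘ a) := reindex_diophFn a db
  have dw : DiophFn fun u : Option (Option α) ⊕ β → ℕ => u iw := proj_dioph _
  have dq : DiophFn fun u : Option (Option α) ⊕ β → ℕ => u iq := proj_dioph _
  have dB' : DiophFn fun u : Option (Option α) ⊕ β → ℕ =>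
      B (Option.elim' (b (u ∘ a) + u iw) (u ∘ a)) := by
    have h1 : DiophFn fun u : Option (Option (Option α) ⊕ β) → ℕ => B (u ∘ Option.map a) :=
      reindex_diophFn (Option.map a) dB
    have h2 := eq_dioph (liftFn h1) (proj_dioph (α := Option (Option (Option (Option α) ⊕ β))) none)
    let sw : Option (Option (Option (Option α) ⊕ β)) → Option (Option (Option (Option α) ⊕ β)) :=
      fun o => o.elim (some none) fun o' => o'.elim none fun c => some (some c)
    have h3 := diophFn_comp1 (reindex_dioph _ sw h2) (liftFn (add_dioph db' dw))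
    refine Dioph.ext h3 fun u => ?_
    simp only [Set.mem_ofPred_eq]
    have : (((Option.elim' (b ((u ∘ some) ∘ a) + (u ∘ some) iw) u) ∘ sw) ∘ some) ∘ Option.map a
        = Option.elim' (b ((u ∘ some) ∘ a) + (u ∘ some) iw) ((u ∘ some) ∘ a) := by
      funext o
      rcases o with _ | o <;> rfl
    rw [this]
    rfl
  have dp : DiophFn fun u : Option (Option α) ⊕ β → ℕ =>
      (p (Sum.elim (Option.elim' (u iq) (u ∘ a)) (u ∘ Sum.inr))).natAbs := by
    refine fnExt (reindex_diophFn (Sum.elim (Option.elim' iq a) Sum.inr) (abs_poly_dioph p))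
      fun u => ?_
    congr 2
    funext o
    rcases o with (_ | o) | o <;> rfl
  have h1 := and_dioph
    (dvd_dioph (mul_dioph (factorial_dioph db')
      (factorial_dioph (add_dioph (add_dioph (add_dioph db' dw) dB') (cst 3))))
      (add_dioph dq (cst 1)))
    (and_dioph (dvd_dioph (choose_dioph dq db') dp)
      (finset_dioph s (fun i u => (u iq).choose (b (u ∘ a)) ∣ (u (Sum.inr i)).choose (u iw))
        fun i _ => dvd_dioph (choose_dioph dq db') (choose_dioph (proj_dioph _) dw)))
  exact Dioph.ext (ex_dioph h1) fun u => Iff.rfl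

theorem pair_dioph {f g : (α → ℕ) → ℕ} (df : DiophFn f) (dg : DiophFn g) :
    DiophFn fun v => Nat.pair (f v) (g v) := by
  have df' := liftFn df
  have dg' := liftFn dg
  have dn : DiophFn fun u : Option α → ℕ => u none := proj_dioph _
  refine Dioph.ext (or_dioph
    (and_dioph (lt_dioph df' dg') (eq_dioph (add_dioph (mul_dioph dg' dg') df') dn))
    (and_dioph (le_dioph dg' df')
      (eq_dioph (add_dioph (add_dioph (mul_dioph df' df') df') dg') dn))) fun u => ?_
  simp only [Set.mem_ofPred_eq, Nat.pair]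
  split_ifs with h
  · simp [h, not_le.2 h]
  · simp [h, not_lt.1 h]

theorem left_dioph {f : (α → ℕ) → ℕ} (df : DiophFn f) : DiophFn fun v => (f v).unpair.1 := by
  have h : Dioph {u : Option α → ℕ | ∃ x, Nat.pair (u none) x = f (u ∘ some)} :=
    ex1 (eq_dioph (pair_dioph (proj_dioph (some none)) (proj_dioph none)) (liftFn (liftFn df)))
  refine Dioph.ext h fun u => ⟨fun ⟨x, hx⟩ => ?_, fun hx => ⟨(f (u ∘ some)).unpair.2, ?_⟩⟩
  · simp only [Set.mem_ofPred_eq, ← hx, Nat.unpair_pair]
  · simp only [Set.mem_ofPred_eq] at hx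
    rw [← hx, Nat.pair_unpair]

theorem right_dioph {f : (α → ℕ) → ℕ} (df : DiophFn f) : DiophFn fun v => (f v).unpair.2 := by
  have h : Dioph {u : Option α → ℕ | ∃ x, Nat.pair x (u none) = f (u ∘ some)} :=
    ex1 (eq_dioph (pair_dioph (proj_dioph none) (proj_dioph (some none))) (liftFn (liftFn df)))
  refine Dioph.ext h fun u => ⟨fun ⟨x, hx⟩ => ?_, fun hx => ⟨(f (u ∘ some)).unpair.1, ?_⟩⟩
  · simp only [Set.mem_ofPred_eq, ← hx, Nat.unpair_pair]
  · simp only [Set.mem_ofPred_eq] at hx
    rw [← hx, Nat.pair_unpair]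

theorem primrec_dioph {F : ℕ → ℕ} (hF : Nat.Primrec F) :
    ∀ {α : Type} {f : (α → ℕ) → ℕ}, DiophFn f → DiophFn fun v => F (f v) := by
  induction hF with
  | zero => intro α f _; exact cst 0
  | succ => intro α f df; exact add_dioph df (cst 1)
  | left => intro α f df; exact left_dioph df
  | right => intro α f df; exact right_dioph df
  | pair _ _ ih1 ih2 => intro α f df; exact pair_dioph (ih1 df) (ih2 df)
  | comp _ _ ih1 ih2 => intro α f df; exact ih1 (ih2 df)
  | @prec F G _ _ ih1 ih2 =>
    intro α f df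
    have dig : ∀ {γ : Type} {a c i : (γ → ℕ) → ℕ}, DiophFn a → DiophFn c → DiophFn i →
        DiophFn fun v => a v / c v ^ i v % c v := fun da dc di =>
      mod_dioph (div_dioph da (pow_dioph dc di)) dc
    have df3 := liftFn (liftFn (liftFn df))
    have h : Dioph {u : Option α → ℕ | ∃ a c : ℕ,
        a / c ^ 0 % c = F (f (u ∘ some)).unpair.1 ∧
        a / c ^ (f (u ∘ some)).unpair.2 % c = u none ∧
        ∀ i < (f (u ∘ some)).unpair.2, a / c ^ (i + 1) % c
          = G (Nat.pair (f (u ∘ some)).unpair.1 (Nat.pair i (a / c ^ i % c)))} := by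
      refine ex1 (ex1 (and_dioph
        (eq_dioph (dig (proj_dioph (some none)) (proj_dioph none) (cst 0)) (ih1 (left_dioph df3)))
        (and_dioph (eq_dioph (dig (proj_dioph (some none)) (proj_dioph none) (right_dioph df3))
          (proj_dioph (some (some none)))) (ball_dioph (right_dioph df3) ?_))))
      exact eq_dioph
        (dig (proj_dioph (some (some none))) (proj_dioph (some none))
          (add_dioph (proj_dioph none) (cst 1)))
        (ih2 (pair_dioph (left_dioph (liftFn df3)) (pair_dioph (proj_dioph none)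
          (dig (proj_dioph (some (some none))) (proj_dioph (some none)) (proj_dioph none)))))
    refine Dioph.ext h fun u => ?_
    simp only [Set.mem_ofPred_eq, Nat.unpaired]
    generalize (f (u ∘ some)).unpair.1 = z
    generalize (f (u ∘ some)).unpair.2 = n
    set R : ℕ → ℕ := fun n => Nat.rec (F z) (fun y IH => G (Nat.pair z (Nat.pair y IH))) n with hR
    change _ ↔ R n = u none
    constructor
    · rintro ⟨a, c, h0, hn, hs⟩
      have : ∀ i ≤ n, a / c ^ i % c = R i := by
        intro i
        induction i with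
        | zero => intro _; exact h0
        | succ i ih =>
          intro hi
          rw [hs i (by omega), ih (by omega)]
      rw [← this n le_rfl, hn]
    · intro hn
      obtain ⟨c, hc⟩ : ∃ c, ∀ j < n + 1, R j < c :=
        ⟨(∑ j ∈ range (n + 1), R j) + 1, fun j hj => Nat.lt_succ_of_le
          (single_le_sum (f := R) (fun _ _ => Nat.zero_le _) (mem_range.2 hj))⟩
      have hd := fun k => digit_sum c (n + 1) R k hc
      refine ⟨∑ j ∈ range (n + 1), R j * c ^ j, c, ?_, ?_, fun i hi => ?_⟩
      · rw [hd, if_pos (Nat.succ_pos _)]; rfl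
      · rw [hd, if_pos (Nat.lt_succ_self _), hn]
      · rw [hd, hd, if_pos (by omega), if_pos (by omega)]

/-- Every recursively enumerable set of natural numbers is Diophantine. -/
theorem re_dioph {S : ℕ → Prop} (hS : REPred S) {f : (α → ℕ) → ℕ} (df : DiophFn f) :
    Dioph {v | S (f v)} := by
  obtain ⟨c, hc⟩ := Nat.Partrec.Code.exists_code.1 (Partrec.nat_iff.1
    (hS.map (g := fun _ _ => (0 : ℕ)) (Computable.const 0).to₂))
  have hp : Primrec fun n : ℕ =>
      Encodable.encode (Nat.Partrec.Code.evaln n.unpair.1 c n.unpair.2) :=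
    Primrec.encode.comp (Nat.Partrec.Code.primrec_evaln.comp
      (((Primrec.fst.comp Primrec.unpair).pair (Primrec.const c)).pair
        (Primrec.snd.comp Primrec.unpair)))
  have h := ex1 (P := fun v k => Encodable.encode (Nat.Partrec.Code.evaln k c (f v)) ≠ 0)
    (Dioph.ext (ne_dioph (primrec_dioph (Primrec.nat_iff.1 hp)
      (pair_dioph (proj_dioph none) (liftFn df))) (cst 0)) fun u => by simp)
  refine Dioph.ext h fun v => ?_
  simp only [Set.mem_ofPred_eq]
  have h1 : S (f v) ↔ (Nat.Partrec.Code.eval c (f v)).Dom := by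
    rw [hc]
    simp [Part.assert]
  rw [h1, Part.dom_iff_mem]
  simp only [Nat.Partrec.Code.evaln_complete]
  constructor
  · rintro ⟨k, hk⟩
    rcases h : Nat.Partrec.Code.evaln k c (f v) with _ | y
    · simp [h] at hk
    · exact ⟨y, k, h⟩
  · rintro ⟨y, k, h⟩
    refine ⟨k, ?_⟩
    rw [Option.mem_def.1 h]
    simp

/-- There is an undecidable Diophantine set of natural numbers. -/
theorem exists_undecidable_dioph :
    ∃ S : ℕ → Prop, Dioph {v : Unit → ℕ | S (v ())} ∧ ¬ ComputablePred S := by
  refine ⟨fun n => (Nat.Partrec.Code.eval (Denumerable.ofNat _ n) 0).Dom,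
    re_dioph (S := fun n => (Nat.Partrec.Code.eval (Denumerable.ofNat _ n) 0).Dom) ?_
      (proj_dioph ()), fun h => ComputablePred.halting_problem 0 ?_⟩
  · exact Partrec.dom_re (Nat.Partrec.Code.eval_part.comp (Computable.ofNat _)
      (Computable.const 0))
  · classical
    obtain ⟨_, h⟩ := h
    refine ⟨inferInstance, ?_⟩
    have := h.comp (Computable.encode (α := Nat.Partrec.Code))
    refine this.of_eq fun c => ?_
    simp

end Pool.Agent.Shared.DPRM
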