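import Mathlib

/-! Binomial coefficients, factorials and bounded universal quantifiers are Diophantine. -/

set_option autoImplicit false

namespace Pool.Agent.Shared.DPRM

open Dioph Finset

variable {α : Type}

theorem ex1 {P : (α → ℕ) → ℕ → Prop}
    (h : Dioph {u : Option α → ℕ | P (u ∘ some) (u none)}) : Dioph {v | ∃ x, P v x} :=
  Dioph.ext (ex1_dioph h) fun _ => Iff.rfl

theorem liftFn {f : (α → ℕ) → ℕ} (df : DiophFn f) :
    DiophFn fun u : Option α → ℕ => f (u ∘ some) := reindex_diophFn some df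

theorem liftSet {S : Set (α → ℕ)} (d : Dioph S) :
    Dioph {u : Option α → ℕ | u ∘ some ∈ S} := reindex_dioph _ some d

theorem cst (n : ℕ) : DiophFn fun _ : α → ℕ => n := const_dioph n

theorem fnExt {f g : (α → ℕ) → ℕ} (df : DiophFn f) (h : ∀ v, f v = g v) : DiophFn g := by
  have : f = g := funext h
  rwa [← this]

theorem and_dioph {P Q : (α → ℕ) → Prop} (d : Dioph {v | P v}) (d' : Dioph {v | Q v}) :
    Dioph {v | P v ∧ Q v} := d.inter d'

theorem or_dioph {P Q : (α → ℕ) → Prop} (d : Dioph {v | P v}) (d' : Dioph {v | Q v}) :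
    Dioph {v | P v ∨ Q v} := d.union d'

theorem finset_dioph {ι : Type*} (s : Finset ι) (P : ι → (α → ℕ) → Prop)
    (h : ∀ i ∈ s, Dioph {v | P i v}) : Dioph {v | ∀ i ∈ s, P i v} := by
  classical
  induction s using Finset.induction_on with
  | empty => exact Dioph.ext (eq_dioph (cst 0) (cst 0)) fun v => by simp
  | insert a s _ ih =>
    refine Dioph.ext (and_dioph (h a (mem_insert_self _ _))
      (ih fun i hi => h i (mem_insert_of_mem hi))) fun v => by simp

theorem digit_sum (u : ℕ) : ∀ (N : ℕ) (s : ℕ → ℕ) (k : ℕ), (∀ j < N, s j < u) →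
    (∑ j ∈ range N, s j * u ^ j) / u ^ k % u = if k < N then s k else 0 := by
  intro N
  induction N with
  | zero => intro s k _; simp
  | succ N ih =>
    intro s k hs
    have h0 : s 0 < u := hs 0 (Nat.succ_pos _)
    have hu : 0 < u := by omega
    have e : (∑ j ∈ range (N + 1), s j * u ^ j)
        = s 0 + u * ∑ j ∈ range N, s (j + 1) * u ^ j := by
      rw [sum_range_succ', mul_sum, add_comm]
      simp only [pow_zero, mul_one]
      congr 1
      exact sum_congr rfl fun j _ => by ring
    rw [e]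
    rcases k with _ | k
    · simp [Nat.mod_eq_of_lt h0]
    · rw [pow_succ', ← Nat.div_div_eq_div_mul, Nat.add_mul_div_left _ _ hu,
        Nat.div_eq_of_lt h0, zero_add,
        ih (fun j => s (j + 1)) k fun j hj => hs (j + 1) (by omega)]
      simp

theorem choose_eq (n k : ℕ) :
    n.choose k = (2 ^ n + 1 + 1) ^ n / (2 ^ n + 1) ^ k % (2 ^ n + 1) := by
  have e : (2 ^ n + 1 + 1) ^ n = ∑ j ∈ range (n + 1), n.choose j * (2 ^ n + 1) ^ j := by
    rw [add_pow]
    exact sum_congr rfl fun j _ => by simp [mul_comm]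
  rw [e, digit_sum]
  · split_ifs with h
    · rfl
    · exact Nat.choose_eq_zero_of_lt (by omega)
  · intro j _
    have := Nat.choose_le_two_pow n j
    omega

theorem choose_dioph {f g : (α → ℕ) → ℕ} (df : DiophFn f) (dg : DiophFn g) :
    DiophFn fun v => (f v).choose (g v) := by
  have hu : DiophFn fun v => 2 ^ f v + 1 := add_dioph (pow_dioph (cst 2) df) (cst 1)
  exact fnExt (mod_dioph (div_dioph (pow_dioph (add_dioph hu (cst 1)) df) (pow_dioph hu dg)) hu)
    fun v => (choose_eq _ _).symm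

theorem factorial_eq (n r : ℕ) (hr : (n ^ n + 1) * (n * n) + n < r) :
    n.factorial = r ^ n / r.choose n := by
  have hnr : n ≤ r := by omega
  have hC : 0 < r.choose n := Nat.choose_pos hnr
  have hd : r.descFactorial n = n.factorial * r.choose n :=
    Nat.descFactorial_eq_factorial_mul_choose r n
  have hF : 0 < n.factorial := n.factorial_pos
  symm
  rw [Nat.div_eq_iff hC]
  constructor
  · rw [← hd]; exact Nat.descFactorial_le_pow r n
  · have h1 : (r - n) ^ n ≤ r.descFactorial n :=
      le_trans (Nat.pow_le_pow_left (by omega) n) (Nat.pow_sub_le_descFactorial r n)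
    have hr0 : (0 : ℚ) < r := by exact_mod_cast (by omega : 0 < r)
    have h2 : (1 : ℚ) + n * (-(n / r)) ≤ (1 + -(n / r : ℚ)) ^ n := by
      apply one_add_mul_le_pow
      have : (n : ℚ) / r ≤ 1 := by
        rw [div_le_one hr0]; exact_mod_cast hnr
      linarith
    have h3 : ((r - n : ℕ) : ℚ) = r * (1 + -(n / r : ℚ)) := by
      rw [Nat.cast_sub hnr]; field_simp; ring
    have h4 : ((n.factorial : ℚ) + 1) * (n * n) < r := by
      have := Nat.factorial_le_pow n
      have h5 : (n.factorial + 1) * (n * n) < r :=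
        lt_of_le_of_lt (Nat.mul_le_mul_right _ (by omega)) (by omega : (n ^ n + 1) * (n * n) < r)
      exact_mod_cast h5
    have h6 : (n.factorial : ℚ) < (n.factorial + 1) * (1 + n * (-(n / r))) := by
      have : ((n.factorial : ℚ) + 1) * (n * n) / r < 1 := by rw [div_lt_one hr0]; exact h4
      have e : ((n.factorial : ℚ) + 1) * (1 + n * (-(n / r)))
          = n.factorial + 1 - ((n.factorial : ℚ) + 1) * (n * n) / r := by
        field_simp; ring
      rw [e]; linarith
    have h7 : (n.factorial : ℚ) * r ^ n < (n.factorial + 1) * ((r - n : ℕ) : ℚ) ^ n := by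
      rw [h3, mul_pow]
      have hp : (0 : ℚ) < (r : ℚ) ^ n := pow_pos hr0 n
      have : ((n.factorial : ℚ) + 1) * (1 + n * (-(n / r)))
          ≤ (n.factorial + 1) * (1 + -(n / r : ℚ)) ^ n :=
        mul_le_mul_of_nonneg_left h2 (by positivity)
      nlinarith
    have h8 : n.factorial * r ^ n < (n.factorial + 1) * (r - n) ^ n := by exact_mod_cast h7
    have h9 : n.factorial * r ^ n < n.factorial * ((n.factorial + 1) * r.choose n) := by
      calc n.factorial * r ^ n < (n.factorial + 1) * (r - n) ^ n := h8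
        _ ≤ (n.factorial + 1) * r.descFactorial n := Nat.mul_le_mul_left _ h1
        _ = _ := by rw [hd]; ring
    have h10 := Nat.lt_of_mul_lt_mul_left h9
    have : (n.factorial + 1) * r.choose n = n.factorial * r.choose n + r.choose n := by ring
    omega

theorem factorial_dioph {f : (α → ℕ) → ℕ} (df : DiophFn f) :
    DiophFn fun v => (f v).factorial := by
  have hr : DiophFn fun v => (f v ^ f v + 1) * (f v * f v) + f v + 1 :=
    add_dioph (add_dioph (mul_dioph (add_dioph (pow_dioph df df) (cst 1)) (mul_dioph df df)) df)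
      (cst 1)
  exact fnExt (div_dioph (pow_dioph hr df) (choose_dioph hr df))
    fun v => (factorial_eq _ _ (Nat.lt_succ_self _)).symm

theorem poly_data {β : Type} {p : (Option α ⊕ β → ℕ) → ℤ} (hp : IsPoly p) :
    ∃ (s : Finset β) (B : (Option α → ℕ) → ℕ), DiophFn B ∧
      (∀ (m : ℤ) (u u' : Option α → ℕ) (t t' : β → ℕ), (∀ a, (u a : ℤ) ≡ u' a [ZMOD m]) →
        (∀ i ∈ s, (t i : ℤ) ≡ t' i [ZMOD m]) → p (Sum.elim u t) ≡ p (Sum.elim u' t') [ZMOD m]) ∧
      (∀ (v : α → ℕ) (w y : ℕ) (t : β → ℕ), y ≤ w → (∀ i ∈ s, t i ≤ w) →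
        (p (Sum.elim (Option.elim' y v) t)).natAbs ≤ B (Option.elim' w v)) := by
  classical
  induction hp with
  | proj i =>
    rcases i with (_ | a) | i
    · exact ⟨∅, fun u => u none, proj_dioph _, fun m u u' t t' h _ => h none,
        fun v w y t h _ => by simpa [Option.elim'] using h⟩
    · exact ⟨∅, fun u => u (some a), proj_dioph _, fun m u u' t t' h _ => h (some a),
        fun v w y t _ _ => by simp [Option.elim']⟩
    · exact ⟨{i}, fun u => u none, proj_dioph _,
        fun m u u' t t' _ h => h i (mem_singleton_self _),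
        fun v w y t _ h => by simpa [Option.elim'] using h i (mem_singleton_self _)⟩
  | const n =>
    exact ⟨∅, fun _ => n.natAbs, cst _, fun m _ _ _ _ _ _ => Int.ModEq.refl _,
      fun _ _ _ _ _ _ => le_rfl⟩
  | sub _ _ ihf ihg =>
    obtain ⟨s, B, dB, c, b⟩ := ihf
    obtain ⟨s', B', dB', c', b'⟩ := ihg
    refine ⟨s ∪ s', fun u => B u + B' u, add_dioph dB dB', fun m u u' t t' h h' => ?_,
      fun v w y t h h' => ?_⟩
    · exact (c m u u' t t' h fun i hi => h' i (mem_union_left _ hi)).sub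
        (c' m u u' t t' h fun i hi => h' i (mem_union_right _ hi))
    · exact (Int.natAbs_sub_le _ _).trans (Nat.add_le_add
        (b v w y t h fun i hi => h' i (mem_union_left _ hi))
        (b' v w y t h fun i hi => h' i (mem_union_right _ hi)))
  | mul _ _ ihf ihg =>
    obtain ⟨s, B, dB, c, b⟩ := ihf
    obtain ⟨s', B', dB', c', b'⟩ := ihg
    refine ⟨s ∪ s', fun u => B u * B' u, mul_dioph dB dB', fun m u u' t t' h h' => ?_,
      fun v w y t h h' => ?_⟩
    · exact (c m u u' t t' h fun i hi => h' i (mem_union_left _ hi)).mul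
        (c' m u u' t t' h fun i hi => h' i (mem_union_right _ hi))
    · rw [Int.natAbs_mul]
      exact Nat.mul_le_mul
        (b v w y t h fun i hi => h' i (mem_union_left _ hi))
        (b' v w y t h fun i hi => h' i (mem_union_right _ hi))

section Factors

variable {b L q : ℕ}

theorem fac_dvd (h : b.factorial * L.factorial ∣ q + 1) {y : ℕ} (hy : y < b) :
    L.factorial ∣ (q + 1) / (y + 1) ∧ (y + 1) * ((q + 1) / (y + 1)) = q + 1 := by
  have h1 : y + 1 ∣ b.factorial := Nat.dvd_factorial (Nat.succ_pos _) hy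
  have h2 : (y + 1) * L.factorial ∣ q + 1 := (Nat.mul_dvd_mul_right h1 _).trans h
  have h3 : y + 1 ∣ q + 1 := (Dvd.intro _ rfl).trans h2
  exact ⟨Nat.dvd_div_of_mul_dvd h2, Nat.mul_div_cancel' h3⟩

theorem fac_pos (h : b.factorial * L.factorial ∣ q + 1) {y : ℕ} (hy : y < b) :
    L.factorial ≤ (q + 1) / (y + 1) := by
  obtain ⟨h1, h2⟩ := fac_dvd h hy
  refine Nat.le_of_dvd (Nat.pos_of_ne_zero fun h0 => ?_) h1
  rw [h0] at h2
  omega

theorem fac_sub (h : b.factorial * L.factorial ∣ q + 1) {y : ℕ} (hy : y < b) :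
    q = y + (y + 1) * ((q + 1) / (y + 1) - 1) := by
  have h2 := (fac_dvd h hy).2
  have h3 : 1 ≤ (q + 1) / (y + 1) := le_trans L.factorial_pos (fac_pos h hy)
  obtain ⟨d, hd⟩ := Nat.exists_eq_add_of_le' h3
  rw [hd] at h2 ⊢
  simp only [Nat.add_sub_cancel]
  nlinarith

theorem fac_prime (h : b.factorial * L.factorial ∣ q + 1) {y : ℕ} (hy : y < b) {r : ℕ}
    (hr : r.Prime) (hd : r ∣ (q + 1) / (y + 1) - 1) : L < r := by
  by_contra hc
  have h1 : r ∣ (q + 1) / (y + 1) :=
    (Nat.dvd_factorial hr.pos (not_lt.1 hc)).trans (fac_dvd h hy).1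
  have h3 : 1 ≤ (q + 1) / (y + 1) := le_trans L.factorial_pos (fac_pos h hy)
  have : r ∣ (q + 1) / (y + 1) - ((q + 1) / (y + 1) - 1) := Nat.dvd_sub h1 hd
  rw [Nat.sub_sub_self h3] at this
  exact hr.one_lt.ne' (Nat.dvd_one.1 this)

theorem choose_prod (h : b.factorial * L.factorial ∣ q + 1) :
    q.choose b = ∏ y ∈ range b, ((q + 1) / (y + 1) - 1) := by
  have h1 : b.factorial * q.choose b
      = b.factorial * ∏ y ∈ range b, ((q + 1) / (y + 1) - 1) := by
    rw [← Nat.descFactorial_eq_factorial_mul_choose, Nat.descFactorial_eq_prod_range,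
      ← prod_range_add_one_eq_factorial, ← prod_mul_distrib]
    refine prod_congr rfl fun y hy => ?_
    have := fac_sub h (mem_range.1 hy)
    omega
  exact Nat.eq_of_mul_eq_mul_left b.factorial_pos h1

theorem fac_coprime (h : b.factorial * L.factorial ∣ q + 1) (hbL : b ≤ L) {y y' : ℕ}
    (hy : y < b) (hy' : y' < b) (hne : y ≠ y') :
    Nat.Coprime ((q + 1) / (y + 1) - 1) ((q + 1) / (y' + 1) - 1) := by
  apply Nat.coprime_of_dvd
  intro r hr h1 h2
  have hL := fac_prime h hy hr h1
  have e1 := fac_sub h hy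
  have e2 := fac_sub h hy'
  have m1 : q ≡ y [MOD r] := by
    rw [e1]; exact Nat.ModEq.symm ((Nat.modEq_iff_dvd' (Nat.le_add_right _ _)).2
      (by simpa using Dvd.dvd.mul_left h1 _))
  have m2 : q ≡ y' [MOD r] := by
    rw [e2]; exact Nat.ModEq.symm ((Nat.modEq_iff_dvd' (Nat.le_add_right _ _)).2
      (by simpa using Dvd.dvd.mul_left h2 _))
  have m3 : y ≡ y' [MOD r] := m1.symm.trans m2
  exact hne (Nat.ModEq.eq_of_lt_of_lt m3 (by omega) (by omega))

end Factors

end Pool.Agent.Shared.DPRM
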